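import Pool.Agent.Run7.h245.DI.Iface
import Pool.Agent.Run7.h711.SR.SQR

/-!
# Piece RE2 of project DI (helper245): the real place over `ℚ`

By helper610. A cubic field over `ℚ` has unit rank one or two; in the second case the sign at the
smallest zero decides whether a product satisfies the local condition at the real place.
-/

set_option autoImplicit false
set_option linter.all false

open Polynomial IsDedekindDomain NumberField
open scoped Classical ComplexConjugate

namespace Pool.Agent.Run7.h610.DI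

open Pool.Agent.Run7.h245.DI
open Pool.Agent.Run7.h711.SR
open Pool.Agent.N783.PF
open Pool.Agent.N783.PQ (LocIm)

/-- A separable cubic polynomial has three real zeros or one. -/
theorem zeros (a b : ℝ) (hsep : (X ^ 3 + C a * X + C b : ℝ[X]).Separable) :
    (∃ e₁ e₂ e₃ : ℝ, e₁ < e₂ ∧ e₂ < e₃ ∧
      (X ^ 3 + C a * X + C b : ℝ[X]) = (X - C e₁) * (X - C e₂) * (X - C e₃)) ∨
    0 < 4 * a ^ 3 + 27 * b ^ 2 := by
  have hns : ∀ e : ℝ, ¬ (X - C e) * (X - C e) ∣ (X ^ 3 + C a * X + C b : ℝ[X]) := by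
    intro e he
    exact (irreducible_X_sub_C e).not_isUnit (hsep.squarefree _ he)
  obtain ⟨r, hr⟩ := Pool.Agent.Run7.h245.NF.real_exists a b
  have hb : b = -(r ^ 3 + a * r) := by linarith
  have hfac : (X ^ 3 + C a * X + C b : ℝ[X]) = (X - C r) * (X ^ 2 + C r * X + C (r ^ 2 + a)) := by
    rw [hb]
    simp only [map_neg, map_add, map_mul, map_pow]
    ring
  rcases lt_trichotomy (3 * r ^ 2 + 4 * a) 0 with hq | hq | hq
  · -- three real zeros
    left
    set δ : ℝ := Real.sqrt (-(3 * r ^ 2 + 4 * a)) with hδ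
    have hδ0 : 0 < δ := Real.sqrt_pos.2 (by linarith)
    have hδ2 : δ ^ 2 = -(3 * r ^ 2 + 4 * a) := Real.sq_sqrt (by linarith)
    have hfac2 : (X ^ 3 + C a * X + C b : ℝ[X]) =
        (X - C r) * ((X - C ((-r + δ) / 2)) * (X - C ((-r - δ) / 2))) := by
      rw [hfac]
      congr 1
      have e1 : a = -(δ ^ 2 + 3 * r ^ 2) / 4 := by linarith
      have e2 : (X - C ((-r + δ) / 2)) * (X - C ((-r - δ) / 2)) =
          X ^ 2 - C ((-r + δ) / 2 + (-r - δ) / 2) * X + C ((-r + δ) / 2 * ((-r - δ) / 2)) := by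
        simp only [map_add, map_mul]
        ring
      rw [e2]
      have e3 : (-r + δ) / 2 + (-r - δ) / 2 = -r := by ring
      have e4 : (-r + δ) / 2 * ((-r - δ) / 2) = r ^ 2 + a := by
        rw [e1]; ring
      rw [e3, e4]
      simp
    have hd1 : r ≠ (-r + δ) / 2 := by
      intro h1
      apply hns r
      rw [hfac2, ← h1]
      exact ⟨(X - C ((-r - δ) / 2)), by ring⟩
    have hd2 : r ≠ (-r - δ) / 2 := by
      intro h1
      apply hns r
      rw [hfac2, ← h1]
      exact ⟨(X - C ((-r + δ) / 2)), by ring⟩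
    have hts : (-r - δ) / 2 < (-r + δ) / 2 := by linarith
    rcases lt_or_gt_of_ne hd2 with h1 | h1
    · exact ⟨r, (-r - δ) / 2, (-r + δ) / 2, h1, hts, by rw [hfac2]; ring⟩
    · rcases lt_or_gt_of_ne hd1 with h2 | h2
      · exact ⟨(-r - δ) / 2, r, (-r + δ) / 2, h1, h2, by rw [hfac2]; ring⟩
      · exact ⟨(-r - δ) / 2, (-r + δ) / 2, r, hts, h2, by rw [hfac2]; ring⟩
  · exfalso
    apply hns (-r / 2)
    rw [hfac]
    refine Dvd.dvd.mul_left ?_ _
    have e1 : a = -(3 * r ^ 2) / 4 := by linarith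
    have e2 : r ^ 2 + a = (-r / 2) * (-r / 2) := by rw [e1]; ring
    rw [e2]
    have e3 : (C r : ℝ[X]) = - (C (-r / 2) + C (-r / 2)) := by
      rw [← map_add, ← map_neg]
      congr 1
      ring
    rw [e3, map_mul]
    exact ⟨1, by ring⟩
  · right
    have e : 4 * a ^ 3 + 27 * b ^ 2 = (3 * r ^ 2 + 4 * a) * (a + 3 * r ^ 2) ^ 2 := by
      rw [hb]; ring
    rw [e]
    apply mul_pos hq
    have h0 : a + 3 * r ^ 2 ≠ 0 := by
      intro h0
      nlinarith [sq_nonneg r]
    positivity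

/-- The norm when there are three real embeddings. -/
theorem norm_three {F L : Type} [Field F] [CharZero F] [Field L] [Algebra F L]
    [FiniteDimensional F L] (σ : F →+* ℝ) (h3 : Module.finrank F L = 3) {θ : L}
    {φ₁ φ₂ φ₃ : L →+* ℝ} (hφ₁ : φ₁.comp (algebraMap F L) = σ)
    (hφ₂ : φ₂.comp (algebraMap F L) = σ) (hφ₃ : φ₃.comp (algebraMap F L) = σ)
    (h12 : φ₁ θ ≠ φ₂ θ) (h13 : φ₁ θ ≠ φ₃ θ) (h23 : φ₂ θ ≠ φ₃ θ) (y : L) (hy : y ≠ 0)
    (hsq : IsSquare (Algebra.norm F y)) : 0 < φ₁ y * φ₂ y * φ₃ y := by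
  letI : Algebra F ℂ := ((algebraMap ℝ ℂ).comp σ).toAlgebra
  have halg : algebraMap F ℂ = (algebraMap ℝ ℂ).comp σ := rfl
  haveI : Algebra.IsSeparable F L := inferInstance
  have hprod := Algebra.norm_eq_prod_embeddings F ℂ y
  let tt : ∀ φ : L →+* ℝ, φ.comp (algebraMap F L) = σ → (L →ₐ[F] ℂ) := fun φ hφ =>
    ⟨(algebraMap ℝ ℂ).comp φ, fun c => by
      show (algebraMap ℝ ℂ) (φ (algebraMap F L c)) = (algebraMap ℝ ℂ) (σ c)
      rw [← hφ]
      rfl⟩
  have htt : ∀ (φ : L →+* ℝ) (hφ : φ.comp (algebraMap F L) = σ) (x : L),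
      tt φ hφ x = (φ x : ℂ) := fun φ hφ x => rfl
  have hne : ∀ (φ φ' : L →+* ℝ) (hφ : φ.comp (algebraMap F L) = σ)
      (hφ' : φ'.comp (algebraMap F L) = σ), φ θ ≠ φ' θ → tt φ hφ ≠ tt φ' hφ' := by
    intro φ φ' hφ hφ' h h'
    apply h
    have := congrArg (fun τ : L →ₐ[F] ℂ => τ θ) h'
    simp only [htt] at this
    exact_mod_cast this
  have hcard : Fintype.card (L →ₐ[F] ℂ) = 3 := by rw [AlgHom.card, h3]
  have hset : (Finset.univ : Finset (L →ₐ[F] ℂ)) = {tt φ₁ hφ₁, tt φ₂ hφ₂, tt φ₃ hφ₃} := by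
    symm
    rw [← Finset.card_eq_iff_eq_univ, hcard]
    rw [Finset.card_insert_of_notMem, Finset.card_insert_of_notMem, Finset.card_singleton]
    · rw [Finset.mem_singleton]
      exact hne _ _ hφ₂ hφ₃ h23
    · rw [Finset.mem_insert, Finset.mem_singleton]
      rintro (h | h)
      · exact hne _ _ hφ₁ hφ₂ h12 h
      · exact hne _ _ hφ₁ hφ₃ h13 h
  have hval : algebraMap F ℂ (Algebra.norm F y) = ((φ₁ y * φ₂ y * φ₃ y : ℝ) : ℂ) := by
    rw [hprod, hset, Finset.prod_insert, Finset.prod_insert, Finset.prod_singleton,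
      htt φ₁ hφ₁, htt φ₂ hφ₂, htt φ₃ hφ₃]
    · push_cast
      ring
    · rw [Finset.mem_singleton]
      exact hne _ _ hφ₂ hφ₃ h23
    · rw [Finset.mem_insert, Finset.mem_singleton]
      rintro (h | h)
      · exact hne _ _ hφ₁ hφ₂ h12 h
      · exact hne _ _ hφ₁ hφ₃ h13 h
  have hval2 : σ (Algebra.norm F y) = φ₁ y * φ₂ y * φ₃ y := by
    have : ((σ (Algebra.norm F y) : ℝ) : ℂ) = ((φ₁ y * φ₂ y * φ₃ y : ℝ) : ℂ) := by
      rw [← hval]
      rfl
    exact_mod_cast this
  obtain ⟨c, hc⟩ := hsq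
  have hn0 : Algebra.norm F y ≠ 0 := by
    rw [Ne, Algebra.norm_eq_zero_iff]
    exact hy
  have hc0 : σ c ≠ 0 := by
    intro h
    apply hn0
    rw [hc, (map_eq_zero σ).1 h, zero_mul]
  rw [← hval2, hc, map_mul]
  exact mul_self_pos.2 hc0

/-- The rank of the units of a cubic field. -/
theorem rank_cubic {L : Type} [Field L] [NumberField L] (h3 : Module.finrank ℚ L = 3) :
    (NumberField.Units.rank L = 1 ∨ NumberField.Units.rank L = 2) ∧
    (NumberField.Units.rank L = 1 → ∀ φ φ' : L →+* ℝ, φ = φ') := by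
  have h1 := NumberField.InfinitePlace.card_add_two_mul_card_eq_rank L
  have h2 := NumberField.InfinitePlace.card_eq_nrRealPlaces_add_nrComplexPlaces L
  have h4 : NumberField.Units.rank L = Fintype.card (InfinitePlace L) - 1 := rfl
  rw [h3] at h1
  refine ⟨by omega, ?_⟩
  intro hr φ φ'
  have h5 : NumberField.InfinitePlace.nrRealPlaces L = 1 := by omega
  have h6 := NumberField.InfinitePlace.card_real_embeddings L
  rw [h5] at h6
  have h7 : Subsingleton {ψ : L →+* ℂ // ComplexEmbedding.IsReal ψ} :=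
    Fintype.card_le_one_iff_subsingleton.1 h6.le
  have hreal : ∀ φ : L →+* ℝ, ComplexEmbedding.IsReal ((algebraMap ℝ ℂ).comp φ) := by
    intro φ
    rw [ComplexEmbedding.isReal_iff]
    ext x
    exact Complex.conj_ofReal _
  have h8 := h7.elim ⟨_, hreal φ⟩ ⟨_, hreal φ'⟩
  have h9 := congrArg Subtype.val h8
  ext x
  have h10 := congrArg (fun τ : L →+* ℂ => τ x) h9
  have h11 : ((φ x : ℝ) : ℂ) = ((φ' x : ℝ) : ℂ) := h10
  exact_mod_cast h11

/-- a square is in the image -/
theorem loc_sq {f h : ℝ[X]} (hs : ∃ s : ℝ[X], f ∣ h - s ^ 2) : LocIm ℝ f h := by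
  obtain ⟨s, hs⟩ := hs
  exact ⟨[], s, by simp, by simpa using hs⟩

/-- one point -/
theorem loc_pt {f h : ℝ[X]} {c : ℝ} (hc : 0 < f.eval c)
    (hs : ∃ s : ℝ[X], f ∣ h * (C c - X) - s ^ 2) : LocIm ℝ f h := by
  obtain ⟨s, hs⟩ := hs
  refine ⟨[(X - C c, C (Real.sqrt (f.eval c)))], s, ?_, ?_⟩
  · intro p hp
    rw [List.mem_singleton] at hp
    rw [hp]
    refine ⟨monic_X_sub_C c, ?_, ?_⟩
    · rw [(irreducible_X_sub_C c).coprime_iff_not_dvd, dvd_iff_isRoot]
      exact hc.ne'
    · rw [dvd_iff_isRoot, IsRoot.def, eval_sub, eval_pow, eval_C, Real.sq_sqrt hc.le, sub_self]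
  · have e : ([(X - C c, C (Real.sqrt (f.eval c)))].map
        fun p : ℝ[X] × ℝ[X] => (-1) ^ p.1.natDegree * p.1).prod = C c - X := by
      simp only [List.map_cons, List.map_nil, List.prod_cons, List.prod_nil, natDegree_X_sub_C]
      ring
    rw [e]
    exact hs

/-- **RE2.** -/
theorem re2 : S_RE2 := by
  intro L _ _ _ f θ hG hf2
  have hfin : Module.finrank ℚ L = 3 := hG.rank
  have hrk := rank_cubic (L := L) (by
    convert hfin
    exact Subsingleton.elim _ _)
  refine ⟨hrk.1, ?_⟩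
  obtain ⟨σ, hσu⟩ : ∃ σ : ℚ →+* ℝ, ∀ τ : ℚ →+* ℝ, τ = σ :=
    ⟨Rat.castHom ℝ, fun τ => Subsingleton.elim _ _⟩
  haveI : FiniteDimensional ℚ L := Module.finite_of_finrank_pos (by rw [hfin]; norm_num)
  have hm : f = X ^ 3 + C (f.coeff 1) * X + C (f.coeff 0) := by
    have hd : f.natDegree = 3 := hG.deg
    have h3 : f.coeff 3 = 1 := by
      have := hG.mon.coeff_natDegree
      rwa [hd] at this
    ext1 i
    simp only [coeff_add, coeff_X_pow, coeff_C_mul, coeff_X, coeff_C]
    rcases lt_or_ge 3 i with hi | hi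
    · rw [coeff_eq_zero_of_natDegree_lt (by omega)]
      rw [if_neg (by omega), if_neg (by omega), if_neg (by omega)]
      ring
    · interval_cases i
      · simp
      · simp
      · simp [hf2]
      · simp [h3]
  obtain ⟨a, b, hmap⟩ : ∃ a b : ℝ, (fF f).map σ = X ^ 3 + C a * X + C b := by
    refine ⟨σ ((f.coeff 1 : 𝓞 ℚ) : ℚ), σ ((f.coeff 0 : 𝓞 ℚ) : ℚ), ?_⟩
    rw [fF]
    conv_lhs => rw [hm]
    simp
  have hsep : ((fF f).map σ).Separable := (irrF hG).separable.map
  rw [hmap] at hsep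
  have hev : ∀ e : ℝ, (X ^ 3 + C a * X + C b : ℝ[X]).eval e = e ^ 3 + a * e + b := by
    intro e; simp
  have hcomp : ∀ ρ : L →+* ℝ, ρ.comp (algebraMap ℚ L) = σ := fun ρ => hσu _
  have hθ : aeval θ (X : ℚ[X]) = θ := aeval_X θ
  rcases zeros a b hsep with ⟨e₁, e₂, e₃, h12, h23, hfac⟩ | hdisc
  · have hr : ∀ e : ℝ, (e = e₁ ∨ e = e₂ ∨ e = e₃) → ((fF f).map σ).eval e = 0 := by
      intro e he
      rw [hmap, hfac]
      simp only [eval_mul, eval_sub, eval_X, eval_C]
      rcases he with he | he | he <;> rw [he] <;> ring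
    obtain ⟨ρ₁, hρ₁⟩ := ex_rho hG σ e₁ (hr _ (Or.inl rfl))
    obtain ⟨ρ₂, hρ₂⟩ := ex_rho hG σ e₂ (hr _ (Or.inr (Or.inl rfl)))
    obtain ⟨ρ₃, hρ₃⟩ := ex_rho hG σ e₃ (hr _ (Or.inr (Or.inr rfl)))
    have t₁ : ρ₁ θ = e₁ := by
      have := hρ₁ X
      rwa [hθ, Polynomial.map_X, eval_X] at this
    have t₂ : ρ₂ θ = e₂ := by
      have := hρ₂ X
      rwa [hθ, Polynomial.map_X, eval_X] at this
    have t₃ : ρ₃ θ = e₃ := by
      have := hρ₃ X
      rwa [hθ, Polynomial.map_X, eval_X] at this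
    refine ⟨fun x => if 0 < ρ₁ x then 1 else 0, ?_, ?_⟩
    · intro hr1
      exfalso
      have := hrk.2 hr1 ρ₁ ρ₂
      apply h12.ne
      rw [← t₁, ← t₂, this]
    · intro x y hx hy hnx hny hκ h₀ hh₀ τ
      rw [hσu τ, hmap]
      have hz : x * y ≠ 0 := mul_ne_zero hx hy
      have hnz : IsSquare (Algebra.norm ℚ (x * y)) := by
        rw [map_mul]
        exact hnx.mul hny
      have hpos := norm_three σ hfin (hcomp ρ₁) (hcomp ρ₂) (hcomp ρ₃)
        (by rw [t₁, t₂]; exact h12.ne) (by rw [t₁, t₃]; exact (h12.trans h23).ne)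
        (by rw [t₂, t₃]; exact h23.ne) (x * y) hz hnz
      have h1 : 0 < ρ₁ (x * y) := by
        rw [map_mul]
        have hx1 : ρ₁ x ≠ 0 := (map_ne_zero ρ₁).2 hx
        have hy1 : ρ₁ y ≠ 0 := (map_ne_zero ρ₁).2 hy
        by_cases hxp : 0 < ρ₁ x
        · have hyp : 0 < ρ₁ y := by
            by_contra hyp
            simp only [if_pos hxp, if_neg hyp] at hκ
            exact absurd hκ (by decide)
          exact mul_pos hxp hyp
        · have hyp : ¬ 0 < ρ₁ y := by
            intro hyp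
            simp only [if_neg hxp, if_pos hyp] at hκ
            exact absurd hκ (by decide)
          exact mul_pos_of_neg_of_neg (lt_of_le_of_ne (not_lt.1 hxp) hx1)
            (lt_of_le_of_ne (not_lt.1 hyp) hy1)
      have h23' : 0 < ρ₂ (x * y) * ρ₃ (x * y) := by
        rw [mul_assoc] at hpos
        exact (mul_pos_iff_of_pos_left h1).1 hpos
      rw [← hh₀, hρ₁] at h1
      rw [← hh₀, hρ₂, hρ₃] at h23'
      have hroot : ∀ e : ℝ, e ^ 3 + a * e + b = 0 → e = e₁ ∨ e = e₂ ∨ e = e₃ := by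
        intro e he
        rw [← hev, hfac] at he
        simp only [eval_mul, eval_sub, eval_X, eval_C] at he
        rcases mul_eq_zero.1 he with h | h
        · rcases mul_eq_zero.1 h with h | h
          · left; linarith
          · right; left; linarith
        · right; right; linarith
      rcases mul_pos_iff.1 h23' with ⟨h2, h3⟩ | ⟨h2, h3⟩
      · apply loc_sq
        refine sq_cubic a b hsep _ fun e he => ?_
        rcases hroot e he with rfl | rfl | rfl
        · exact h1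
        · exact h2
        · exact h3
      · set c : ℝ := (e₁ + e₂) / 2 with hc
        have hc1 : e₁ < c := by rw [hc]; linarith
        have hc2 : c < e₂ := by rw [hc]; linarith
        apply loc_pt (c := c)
        · rw [hfac]
          simp only [eval_mul, eval_sub, eval_X, eval_C]
          have i1 : 0 < c - e₁ := by linarith
          have i2 : 0 < e₂ - c := by linarith
          have i3 : 0 < e₃ - c := by linarith
          have := mul_pos (mul_pos i1 i2) i3
          nlinarith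
        · refine sq_cubic a b hsep _ fun e he => ?_
          rw [eval_mul, eval_sub, eval_C, eval_X]
          rcases hroot e he with rfl | rfl | rfl
          · exact mul_pos h1 (by linarith)
          · exact mul_pos_of_neg_of_neg h2 (by linarith)
          · exact mul_pos_of_neg_of_neg h3 (by linarith)
  · refine ⟨fun _ => 0, fun _ _ => rfl, ?_⟩
    intro x y hx hy hnx hny hκ h₀ hh₀ τ
    rw [hσu τ, hmap]
    have hz : x * y ≠ 0 := mul_ne_zero hx hy
    have hnz : IsSquare (Algebra.norm ℚ (x * y)) := by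
      rw [map_mul]
      exact hnx.mul hny
    apply loc_sq
    refine sq_cubic a b hsep _ fun e he => ?_
    obtain ⟨ρ, hρ⟩ := ex_rho hG σ e (by rw [hmap, hev]; exact he)
    have t : ρ θ = e := by
      have := hρ X
      rwa [hθ, Polynomial.map_X, eval_X] at this
    rw [← hρ, hh₀]
    refine Pool.Agent.Run7.h245.NF.norm_real σ ?_ hfin (hcomp ρ) t ?_ (x * y) hz hnz
    · exact (pbs hG).adjoin_gen_eq_top
    · intro ψ hψ him
      obtain ⟨w, hw⟩ : ∃ w : ℝ, ψ θ = (w : ℂ) :=
        ⟨(ψ θ).re, (Complex.ext rfl (by simpa using him))⟩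
      have h1 : w ^ 3 + a * w + b = 0 := by
        have h2 : eval₂ (ψ.comp (algebraMap ℚ L)) (ψ θ) (fF f) = 0 := by
          rw [← hom_eval₂]
          have h3 : eval₂ (algebraMap ℚ L) θ (fF f) = 0 := hG.root
          rw [h3, map_zero]
        rw [hψ, hw, ← eval₂_map, hmap] at h2
        simp only [eval₂_add, eval₂_mul, eval₂_C, eval₂_X, eval₂_X_pow] at h2
        have h4 : ((w ^ 3 + a * w + b : ℝ) : ℂ) = 0 := by
          push_cast
          exact h2
        exact_mod_cast h4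
      rw [hw, Pool.Agent.Run7.h245.NF.real_unique hdisc h1 he]

end Pool.Agent.Run7.h610.DI
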